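import Pool.Agent.Run7.h536.CE9
import Pool.Agent.Run7.h536.CE16

set_option autoImplicit false

/-!
# `n = f(p₁) + p₂` with `p₁` in ALL residue classes to almost all large moduli, uniformly in `f(x) = x² + b x + c`

Van der Corput: for an admissible `f` almost all odd `n` are of the form `f(p₁) + p₂`. Here the argument of `f` is
restricted to very sparse sets, with one exceptional set of moduli for ALL classes and ALL `f`. Let `q` run through an
arbitrary set `A` of moduli up to `Q`, of relative density at least a power of `1 / log X`, where `Q` and `X` are of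
polynomially comparable size.

(1) Consider the integers `x = q m + a`, `1 ≤ m ≤ X`, of a residue class modulo `q`; these are of size `N = Q X`, so that the
modulus may be as large as `N ^ (1 - ε)`. For almost all `q ∈ A`, for ALL classes and starting points `a`, ALL `b` and ALL
weights `w(m)` (in particular for the indicator function of the primes `p₁ = q m + a`, or of any other set of
arguments), for almost all `n` (or `n - c`) the representations `n = f(x) + p₂` weighted by `w(m) log p₂` are as many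
as the sieve model of the primes predicts, for all `m ≤ M` and all `M ≤ X`.

(2) Consider the arguments `x = q p₁` with a prime `p₁ ≤ X`. For almost all `q ∈ A`, for ALL `b`, for almost all `n`
the number of the representations `n = f(q p₁) + p₂`, `p₁ ≤ M`, weighted by `log p₁ log p₂`, is given by the formula of
Hardy, Littlewood and Schinzel with the explicit constant, for all `M ≤ X`.

Proof. As polynomials in `m` (in `p₁`) the values have the leading coefficient `-q²`, the middle coefficient is arbitrary.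
The family has nearly minimal additive energy (`Run7.h536.CE1` to `CE4`); the circle method for correlations of primes along
families of nearly minimal energy (starting files, `TH872.Sq`, `R459.fam_near_fin`) and a maximal choice of the bad data,
weights included (`CE5`, `CE6`, `CE16`) give the result, the main term of (2) is computed with the fundamental lemma of the
sieve and the theorem of Siegel and Walfisz (`LD3`).
-/

namespace Pool.Agent.Results.MP_d9bc60_nt.AllClassesLargeModuli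

open Finset Polynomial

/-- The value `x² + b x` of the polynomial (the constant term is included in `n`). -/
def value (b x : ℤ) : ℤ := x ^ 2 + b * x

/-- The sieve model of the von Mangoldt function: `∏_{p ≤ z} (1 - 1/p)⁻¹` at the integers without prime factors `p ≤ z`,
and `0` for the others. -/
noncomputable def model (z : ℕ) (x : ℤ) : ℝ :=
  if ∀ p ∈ (Icc 1 z).filter Nat.Prime, ¬ (p : ℤ) ∣ x then (∏ p ∈ (Icc 1 z).filter Nat.Prime, (1 - 1 / (p : ℝ)))⁻¹ else 0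

/-- The number `ρ(p)` of the residues `r` modulo `p` with `r ≢ 0` and `n - f(q r) ≡ 0`. -/
def rho (q : ℕ) (b n : ℤ) (p : ℕ) : ℕ :=
  ((range p).filter (fun r : ℕ => ¬ p ∣ r ∧ (p : ℤ) ∣ n - value b (q * r))).card

/-- The singular product `∏_{p ≤ z} (1 - 1/p)⁻¹ (1 - ρ(p)/(p - 1))`. -/
noncomputable def singular (q : ℕ) (b n : ℤ) (z : ℕ) : ℝ :=
  ∏ p ∈ (Icc 1 z).filter Nat.Prime, ((1 - 1 / (p : ℝ))⁻¹ * (1 - (rho q b n p : ℝ) / (p - 1)))

/-- Functions between `log` on the primes and the von Mangoldt function. -/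
def PrimeLike (L : ℕ → ℝ) : Prop :=
  ∀ n, (if n.Prime then Real.log n else 0) ≤ L n ∧ L n ≤ ArithmeticFunction.vonMangoldt n

open Classical in
/-- The number of the integers `n`, `|n| ≤ K`, such that for some `M ≤ X` the sum of `w(m) L(|n - f(x)|)` over
`x = q m + a`, `1 ≤ m ≤ M`, differs from the sum of `w(m) model_z(n - f(x))` by more than `δ`. -/
noncomputable def exceptions (K X z : ℕ) (L : ℕ → ℝ) (δ : ℝ) (q : ℕ) (a b : ℤ) (w : ℕ → ℝ) : ℕ :=
  ((Icc (-(K : ℤ)) K).filter (fun n : ℤ => ∃ M : ℕ, M ≤ X ∧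
    δ < |∑ m ∈ Icc 1 M, w m * (L (n - value b (q * m + a)).natAbs - model z (n - value b (q * m + a)))|)).card

open Classical in
/-- The number of the integers `n`, `|n| ≤ K`, such that for some `M ≤ X` the sum of `L(m) L(|n - f(q m)|)` over `m ≤ M`
(with `L` between `log` on the primes and the von Mangoldt function) differs from
`M ∏_{p ≤ z} (1 - 1/p)⁻¹ (1 - ρ(p)/(p - 1))` by more than `δ`. -/
noncomputable def exceptions' (K X z : ℕ) (L : ℕ → ℝ) (δ : ℝ) (q : ℕ) (b : ℤ) : ℕ :=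
  ((Icc (-(K : ℤ)) K).filter (fun n : ℤ => ∃ M : ℕ, M ≤ X ∧
    δ < |∑ m ∈ Icc 1 M, L m * L (n - value b (q * m)).natAbs - M * singular q b n z|)).card

lemma neg_quad_degree (u b : ℤ) : (Polynomial.C u * Polynomial.X ^ 2 + Polynomial.C b * Polynomial.X : ℤ[X]).natDegree ≤ 2 := by
  compute_degree

lemma neg_quad_coeff (u b : ℤ) : (Polynomial.C u * Polynomial.X ^ 2 + Polynomial.C b * Polynomial.X : ℤ[X]).coeff 2 = u := by
  rw [coeff_add, coeff_C_mul, coeff_C_mul, coeff_X_pow, coeff_X, if_pos rfl, if_neg (by norm_num)]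
  ring

/-- the size of the values -/
lemma size (B : ℕ) (N x b : ℤ) (hN : 0 ≤ N) (hx : |x| ≤ (B + 2) * N) (hb : |b| ≤ B * N) :
    |x ^ 2 + b * x| ≤ ((2 * B ^ 2 + 8 * B + 16 : ℕ) : ℤ) * N ^ 2 := by
  have hB0 : (0 : ℤ) ≤ B := Int.natCast_nonneg B
  have e2 : |x ^ 2 + b * x| ≤ ((B + 2) * N) ^ 2 + (B * N) * ((B + 2) * N) := by
    refine (abs_add_le _ _).trans (add_le_add ?_ ?_)
    · rw [abs_pow]
      exact pow_le_pow_left₀ (abs_nonneg _) hx 2
    · rw [abs_mul]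
      exact mul_le_mul hb hx (abs_nonneg _) (mul_nonneg hB0 hN)
  refine e2.trans ?_
  push_cast
  nlinarith [mul_nonneg hB0 (pow_nonneg hN 2), pow_nonneg hN 2]

open Classical in
/-- the first part -/
theorem part_one (r B C T U : ℕ) (hr : 1 ≤ r) :
    ∃ B₀ : ℕ, ∀ E : ℕ, ∃ x₀ : ℕ, ∀ X : ℕ, x₀ ≤ X → ∀ Q : ℕ, Q ≤ X ^ r → X ≤ Q ^ r →
    ∀ A : Finset ℕ, A ⊆ Icc 1 Q → (Q : ℝ) ≤ Real.log X ^ C * A.card →
    ∀ z : ℕ, 2 ≤ z → Real.log X ^ B₀ ≤ z → (z : ℝ) ≤ Real.log X ^ E → ∀ L : ℕ → ℝ, PrimeLike L →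
    ((A.filter (fun q : ℕ => ∃ a b : ℤ, ∃ w : ℕ → ℝ, |a| ≤ B * (Q * X) ∧ |b| ≤ B * (Q * X) ∧
      (∀ m ∈ Icc 1 X, |w m| ≤ Real.log X ^ T) ∧
      (((Q * X) ^ 2 : ℕ) : ℝ) / Real.log X ^ U <
        exceptions (B * (Q * X) ^ 2) X z L (X / Real.log X ^ U) q a b w)).card : ℝ) ≤
      A.card / Real.log X ^ U := by
  obtain ⟨B1, hB1⟩ : ∃ B1, B1 = 2 * B ^ 2 + 8 * B + 16 := ⟨_, rfl⟩
  have hBB : B ≤ B1 := by rw [hB1]; nlinarith
  obtain ⟨B0, h0⟩ := Pool.Agent.Run7.h536.CE.ap_W 1 (fun _ => 2) (fun _ => le_rfl) (r + 1) B1 C T U (by omega) (by omega)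
  refine ⟨B0, fun E => ?_⟩
  obtain ⟨x0, h1⟩ := h0 E
  refine ⟨x0, fun X hX Q hQ1 hQ2 A hA hAQ z hz2' hz1 hz2 L hL => ?_⟩
  have hL' : ∀ n, Pool.Agent.TH872.Sq.th n ≤ L n ∧ L n ≤ ArithmeticFunction.vonMangoldt n := hL
  have hmod : ∀ x : ℤ, Pool.Agent.Run7.h536.RD.AM z x = model z x := fun x => Pool.Agent.Run7.h536.MT.AM_eq z hz2' x
  have key := h1 X hX Q (by rw [Nat.add_sub_cancel]; exact hQ1) (by rw [Nat.add_sub_cancel]; exact hQ2) A hA hAQ
    (fun _ => -1) (fun _ => by norm_num) z hz1 hz2 L hL'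
  refine le_trans (Nat.cast_le.2 (card_le_card ?_)) key
  intro q hq
  rw [mem_filter] at hq ⊢
  obtain ⟨hqA, a, b, w, ha, hb, hw, hex⟩ := hq
  have hq1 := mem_Icc.1 (hA hqA)
  have heval : ∀ x : ℤ, (Polynomial.C (-1) * Polynomial.X ^ 2 + Polynomial.C (-b) * Polynomial.X : ℤ[X]).eval x = -(x ^ 2 + b * x) := by
    intro x
    simp only [eval_add, eval_mul, eval_C, eval_pow, eval_X]
    ring
  refine ⟨hqA, fun _ => Polynomial.C (-1) * Polynomial.X ^ 2 + Polynomial.C (-b) * Polynomial.X, a, w, hw,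
    fun _ => neg_quad_degree _ _, fun _ => neg_quad_coeff _ _, ?_, ?_⟩
  · intro _ m hm
    rw [mem_range] at hm
    have hm' : (m : ℤ) ≤ 2 * X := by exact_mod_cast hm.le
    have hm0 : (0 : ℤ) ≤ m := Int.natCast_nonneg m
    have hX0 : (0 : ℤ) ≤ X := Int.natCast_nonneg X
    have hq2 : (q : ℤ) ≤ Q := by exact_mod_cast hq1.2
    have hq0 : (0 : ℤ) ≤ q := Int.natCast_nonneg q
    have hQ0 : (0 : ℤ) ≤ Q := Int.natCast_nonneg Q
    rw [heval, abs_neg, hB1]
    refine (size B (Q * X) _ b (mul_nonneg hQ0 hX0) ?_ hb).trans (le_of_eq (by push_cast; ring))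
    have e3 : |(q : ℤ) * (m : ℤ)| ≤ 2 * (Q * X) := by
      rw [abs_of_nonneg (mul_nonneg hq0 hm0)]
      calc (q : ℤ) * m ≤ Q * (2 * X) := mul_le_mul hq2 hm' hm0 hQ0
        _ = _ := by ring
    calc |(q : ℤ) * (m : ℤ) + a| ≤ |(q : ℤ) * (m : ℤ)| + |a| := abs_add_le _ _
      _ ≤ 2 * (Q * X) + B * (Q * X) := add_le_add e3 ha
      _ = _ := by ring
  · rw [Fin.prod_univ_one]
    refine lt_of_lt_of_le hex (Nat.cast_le.2 ?_)
    unfold exceptions
    have hN2 : (0 : ℤ) ≤ (((Q * X) ^ 2 : ℕ) : ℤ) := Int.natCast_nonneg _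
    have hbig : ((B * (Q * X) ^ 2 : ℕ) : ℤ) ≤ (B1 : ℤ) * (((Q * X) ^ 2 : ℕ) : ℤ) := by
      rw [Nat.cast_mul]
      exact mul_le_mul_of_nonneg_right (by exact_mod_cast hBB) hN2
    rw [Pool.Agent.Run7.h536.CE.card_fin1 (Icc (-((B1 : ℤ) * (((Q * X) ^ 2 : ℕ) : ℤ))) ((B1 : ℤ) * (((Q * X) ^ 2 : ℕ) : ℤ)))
      _ (fun n : ℤ => ∃ M : ℕ, M ≤ X ∧ (X : ℝ) / Real.log X ^ U < |∑ m ∈ Icc 1 M, w m *
        (L (n - value b (q * m + a)).natAbs - model z (n - value b (q * m + a)))|) ?_]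
    · apply card_le_card
      intro c hc
      rw [mem_filter, mem_Icc] at hc ⊢
      exact ⟨⟨by linarith [hc.1.1], by linarith [hc.1.2]⟩, hc.2⟩
    · intro c
      have e : ∀ m : ℕ, -(((q : ℤ) * (m : ℤ) + a) ^ 2 + b * ((q : ℤ) * (m : ℤ) + a)) + c 0 = c 0 - value b (q * m + a) := by
        intro m
        unfold value
        ring
      simp only [Fin.prod_univ_one, heval, e, hmod]

open Classical in
/-- the second part -/
theorem part_two (r B C U : ℕ) (hr : 1 ≤ r) :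
    ∃ B₀ : ℕ, ∀ E : ℕ, ∃ x₀ : ℕ, ∀ X : ℕ, x₀ ≤ X → ∀ Q : ℕ, Q ≤ X ^ r → X ≤ Q ^ r →
    ∀ A : Finset ℕ, A ⊆ Icc 1 Q → (Q : ℝ) ≤ Real.log X ^ C * A.card →
    ∀ z : ℕ, Real.log X ^ B₀ ≤ z → (z : ℝ) ≤ Real.log X ^ E → ∀ L : ℕ → ℝ, PrimeLike L →
    ((A.filter (fun q : ℕ => ∃ b : ℤ, |b| ≤ B * (Q * X) ∧
      (((Q * X) ^ 2 : ℕ) : ℝ) / Real.log X ^ U <
        exceptions' (B * (Q * X) ^ 2) X z L (X / Real.log X ^ U) q b)).card : ℝ) ≤
      A.card / Real.log X ^ U := by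
  obtain ⟨B1, hB1⟩ : ∃ B1, B1 = 2 * B ^ 2 + 8 * B + 16 := ⟨_, rfl⟩
  have hBB : B ≤ B1 := by rw [hB1]; nlinarith
  obtain ⟨p, C', n1, hp, hen⟩ := Pool.Agent.Run7.h536.CE.energy_moduli 2 C le_rfl
  obtain ⟨B0, h0⟩ := Pool.Agent.Run7.h536.CE.cross_one_prime 2 p le_rfl hp (2 * r) B1 C' U (by omega) (by omega)
  refine ⟨B0, fun E => ?_⟩
  obtain ⟨x0, h1⟩ := h0 E
  refine ⟨x0 + n1 + 1, fun X hX Q hQ1 hQ2 A hA hAQ z hz1 hz2 L hL => ?_⟩
  have hL' : ∀ n, Pool.Agent.TH872.Sq.th n ≤ L n ∧ L n ≤ ArithmeticFunction.vonMangoldt n := hL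
  have hX1 : 1 ≤ X := by omega
  have hQ1' : 1 ≤ Q := by
    rcases Nat.eq_zero_or_pos Q with h0 | h0
    · rw [h0, zero_pow (by omega)] at hQ2
      omega
    · exact h0
  have key := h1 X (by omega) (Q ^ 2) (by
      calc Q ^ 2 ≤ (X ^ r) ^ 2 := Nat.pow_le_pow_left hQ1 2
        _ = X ^ (2 * r) := by rw [← pow_mul, mul_comm]) (by
      calc X ≤ Q ^ r := hQ2
        _ ≤ Q ^ (2 * (2 * r)) := Nat.pow_le_pow_right hQ1' (by omega)
        _ = (Q ^ 2) ^ (2 * r) := by rw [← pow_mul]) {n : ℕ // n ∈ A} (fun i => ((i.1 : ℕ) : ℤ) ^ 2) (fun i => by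
      have h3 := mem_Icc.1 (hA i.2)
      rw [abs_of_nonneg (by positivity)]
      have h4 : i.1 ^ 2 ≤ B1 * Q ^ 2 := (Nat.pow_le_pow_left h3.2 _).trans (Nat.le_mul_of_pos_left _ (by omega))
      exact_mod_cast h4) (hen X (by omega) Q A hA hAQ) (-1) (by norm_num) z hz1 hz2 L hL'
  rw [Fintype.card_coe, ← mul_pow] at key
  refine le_trans ?_ key
  apply Nat.cast_le.2
  have hsub : ∀ P : ℕ → Prop, ∀ P' : {n : ℕ // n ∈ A} → Prop, (∀ i, P i.1 → P' i) → (A.filter P).card ≤ (univ.filter P').card := by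
    intro P P' hPP
    have e : A.filter P ⊆ (univ.filter P').image (fun i => i.1) := by
      intro n hn
      rw [mem_filter] at hn
      rw [mem_image]
      exact ⟨⟨n, hn.1⟩, mem_filter.2 ⟨mem_univ _, hPP ⟨n, hn.1⟩ hn.2⟩, rfl⟩
    exact (card_le_card e).trans card_image_le
  apply hsub
  rintro ⟨q, hq⟩ ⟨b, hb, hex⟩
  have hq1 := mem_Icc.1 (hA hq)
  have heval : ∀ x : ℤ, (Polynomial.C (-(q : ℤ) ^ 2) * Polynomial.X ^ 2 + Polynomial.C (-(b * q)) * Polynomial.X : ℤ[X]).eval x =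
      -(((q : ℤ) * x) ^ 2 + b * ((q : ℤ) * x)) := by
    intro x
    simp only [eval_add, eval_mul, eval_C, eval_pow, eval_X]
    ring
  refine ⟨Polynomial.C (-(q : ℤ) ^ 2) * Polynomial.X ^ 2 + Polynomial.C (-(b * q)) * Polynomial.X,
    neg_quad_degree _ _, ?_, ?_, ?_⟩
  · rw [neg_quad_coeff]
    ring
  · intro m hm
    rw [mem_range] at hm
    have hm' : (m : ℤ) ≤ 2 * X := by exact_mod_cast hm.le
    have hm0 : (0 : ℤ) ≤ m := Int.natCast_nonneg m
    have hX0 : (0 : ℤ) ≤ X := Int.natCast_nonneg X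
    have hq2 : (q : ℤ) ≤ Q := by exact_mod_cast hq1.2
    have hq0 : (0 : ℤ) ≤ q := Int.natCast_nonneg q
    have hQ0 : (0 : ℤ) ≤ Q := Int.natCast_nonneg Q
    have hB0 : (0 : ℤ) ≤ B := Int.natCast_nonneg B
    rw [heval, abs_neg, hB1]
    refine (size B (Q * X) _ b (mul_nonneg hQ0 hX0) ?_ hb).trans (le_of_eq (by push_cast; ring))
    rw [abs_of_nonneg (mul_nonneg hq0 hm0)]
    calc (q : ℤ) * m ≤ Q * (2 * X) := mul_le_mul hq2 hm' hm0 hQ0
      _ = 0 * (Q * X) + 2 * (Q * X) := by ring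
      _ ≤ B * (Q * X) + 2 * (Q * X) := by
          have := mul_le_mul_of_nonneg_right hB0 (mul_nonneg hQ0 hX0)
          linarith
      _ = _ := by ring
  · refine lt_of_lt_of_le hex (Nat.cast_le.2 ?_)
    unfold exceptions'
    have hN2 : (0 : ℤ) ≤ (((Q * X) ^ 2 : ℕ) : ℤ) := Int.natCast_nonneg _
    have hbig : ((B * (Q * X) ^ 2 : ℕ) : ℤ) ≤ (B1 : ℤ) * (((Q * X) ^ 2 : ℕ) : ℤ) := by
      rw [Nat.cast_mul]
      exact mul_le_mul_of_nonneg_right (by exact_mod_cast hBB) hN2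
    apply card_le_card
    intro c hc
    rw [mem_filter, mem_Icc] at hc ⊢
    obtain ⟨⟨hc1, hc2⟩, M, hM1, hM2⟩ := hc
    refine ⟨⟨by linarith, by linarith⟩, M, hM1, lt_of_lt_of_le hM2 (le_of_eq ?_)⟩
    have e : ∀ x : ℤ, -(((q : ℤ) * x) ^ 2 + b * ((q : ℤ) * x)) + c = c - value b (q * x) := by
      intro x
      unfold value
      ring
    have esing : singular q b c z = ∏ p ∈ Pool.Agent.H373R2.T7.pz z, ((1 - 1 / (p : ℝ))⁻¹ *
        (1 - (Pool.Agent.Run7.h536.MT.rhos (Polynomial.C (-(q : ℤ) ^ 2) * Polynomial.X ^ 2 +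
          Polynomial.C (-(b * q)) * Polynomial.X + Polynomial.C c) p : ℝ) / (p - 1))) := by
      unfold singular Pool.Agent.H373R2.T7.pz
      apply prod_congr rfl
      intro p _
      have e2 : rho q b c p = Pool.Agent.Run7.h536.MT.rhos (Polynomial.C (-(q : ℤ) ^ 2) * Polynomial.X ^ 2 +
          Polynomial.C (-(b * q)) * Polynomial.X + Polynomial.C c) p := by
        unfold rho Pool.Agent.Run7.h536.MT.rhos
        congr 1
        apply filter_congr
        intro x _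
        rw [eval_add, heval, eval_C, e]
      rw [e2]
    rw [esing]
    simp only [heval, e]

open Classical in
/-- Fix `r`, `B`, `C`, `T`, `U`. There is `B₀` such that for all `E` and all large `X`: let `Q ≤ X ^ r`, `X ≤ Q ^ r`, let `A`
be ANY set of positive integers up to `Q` with at least `Q / (log X) ^ C` elements, `z` an integer between `(log X) ^ B₀`
and `(log X) ^ E`, and `L` a function between `log` on the primes and the von Mangoldt function; `f(x) = x² + b x`.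

(1) For all but at most `|A| / (log X) ^ U` of the moduli `q ∈ A`: for ALL integers `a` and `b` with `|a|, |b| ≤ B Q X` and
ALL weights `|w(m)| ≤ (log X) ^ T` (for instance `w(m) = L(q m + a)`), for all but at most `(Q X)² / (log X) ^ U` of the
integers `n` with `|n| ≤ B (Q X)²`: for all `M ≤ X` the sum of `w(m) L(|n - f(q m + a)|)` over `m ≤ M` is the sum of
`w(m) model_z(n - f(q m + a))` up to `X / (log X) ^ U`.

(2) For all but at most `|A| / (log X) ^ U` of the `q ∈ A`: for ALL integers `b` with `|b| ≤ B Q X`, for all but at most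
`(Q X)² / (log X) ^ U` of the integers `n` with `|n| ≤ B (Q X)²`: for all `M ≤ X` the sum of `L(m) L(|n - f(q m)|)` over
`m ≤ M` (essentially the sum of `log p₁ log p₂` over the `n = f(q p₁) + p₂` with `p₁ ≤ M`) is
`M ∏_{p ≤ z} (1 - 1/p)⁻¹ (1 - ρ(p)/(p - 1))` up to `X / (log X) ^ U`, where `ρ(p)` is the number of the nonzero residues
`r` modulo `p` with `n ≡ f(q r)`. -/
theorem result (r B C T U : ℕ) (hr : 1 ≤ r) :
    ∃ B₀ : ℕ, ∀ E : ℕ, ∃ x₀ : ℕ, ∀ X : ℕ, x₀ ≤ X → ∀ Q : ℕ, Q ≤ X ^ r → X ≤ Q ^ r →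
    ∀ A : Finset ℕ, A ⊆ Icc 1 Q → (Q : ℝ) ≤ Real.log X ^ C * A.card →
    ∀ z : ℕ, Real.log X ^ B₀ ≤ z → (z : ℝ) ≤ Real.log X ^ E → ∀ L : ℕ → ℝ, PrimeLike L →
    ((A.filter (fun q : ℕ => ∃ a b : ℤ, ∃ w : ℕ → ℝ, |a| ≤ B * (Q * X) ∧ |b| ≤ B * (Q * X) ∧
      (∀ m ∈ Icc 1 X, |w m| ≤ Real.log X ^ T) ∧
      (((Q * X) ^ 2 : ℕ) : ℝ) / Real.log X ^ U <
        exceptions (B * (Q * X) ^ 2) X z L (X / Real.log X ^ U) q a b w)).card : ℝ) ≤
      A.card / Real.log X ^ U ∧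
    ((A.filter (fun q : ℕ => ∃ b : ℤ, |b| ≤ B * (Q * X) ∧
      (((Q * X) ^ 2 : ℕ) : ℝ) / Real.log X ^ U <
        exceptions' (B * (Q * X) ^ 2) X z L (X / Real.log X ^ U) q b)).card : ℝ) ≤
      A.card / Real.log X ^ U := by
  obtain ⟨B1, h1⟩ := part_one r B C T U hr
  obtain ⟨B2, h2⟩ := part_two r B C U hr
  obtain ⟨n1, hn1⟩ := Pool.Agent.H373R2.T7.ev_L' 2
  refine ⟨B1 + B2 + 1, fun E => ?_⟩
  obtain ⟨x1, h1'⟩ := h1 E
  obtain ⟨x2, h2'⟩ := h2 E
  refine ⟨x1 + x2 + n1, fun X hX Q hQ1 hQ2 A hA hAQ z hz1 hz2 L hL => ?_⟩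
  have hl := hn1 X (by omega)
  have hz2' : 2 ≤ z := by
    have : (2 : ℝ) ≤ z := by
      refine le_trans ?_ hz1
      calc (2 : ℝ) ≤ Real.log X := hl
        _ = Real.log X ^ 1 := (pow_one _).symm
        _ ≤ _ := pow_le_pow_right₀ (by linarith) (by omega)
    exact_mod_cast this
  exact ⟨h1' X (by omega) Q hQ1 hQ2 A hA hAQ z hz2' ((pow_le_pow_right₀ (by linarith) (by omega)).trans hz1) hz2 L hL,
    h2' X (by omega) Q hQ1 hQ2 A hA hAQ z ((pow_le_pow_right₀ (by linarith) (by omega)).trans hz1) hz2 L hL⟩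

end Pool.Agent.Results.MP_d9bc60_nt.AllClassesLargeModuli
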