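import Pool.Agent.Run7.h620.PD.PU

set_option autoImplicit false

/-!
# `N = f(n) + n'` for every integer `N` and every monic quadratic polynomial `f`

`n` runs over the palindromes with `K` base `B` digits, all of them `e` or `g`. Uniformly in the integers `N` and the
polynomials `f = x ^ 2 + b x + c` with `|N|, |b|, |c| ≤ B ^ (L K)`, for at least `c₀ 2 ^ (K / 2) / K ^ 3` of these
palindromes both `n` and `n' = N - f(n)` have at most `r` prime factors.

Proof: level of distribution of the palindromes with two digits (balanced digits of all fractions with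
denominators up to `exp (c K)` are counted at once); the solutions of `x (N - f(x)) ≡ 0` modulo a high power of a small
prime lie in at most three classes modulo a lower power, uniformly in `f` and `N`, which gives a residue class modulo
a fixed number in which `n (N - f(n))` is divisible by no high power of a small prime; the fundamental lemma, Mertens.
-/

namespace Pool.Agent.Results.MP_d9bc60_nt.AllIntegersPalindromes

open Finset Filter

/-- `n` has exactly `K` base `B` digits, all of them `e` or `g`, and they read the same backwards. -/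
def Pal (B e g K n : ℕ) : Prop :=
  (Nat.digits B n).length = K ∧ (Nat.digits B n).reverse = Nat.digits B n ∧ ∀ d ∈ Nat.digits B n, d = e ∨ d = g

/-- `x` is not `0` and has at most `r` prime factors, counted with multiplicity. -/
def Almost (r : ℕ) (x : ℤ) : Prop := x ≠ 0 ∧ x.natAbs.primeFactorsList.length ≤ r

open Polynomial in
lemma nd (b c N : ℤ) : (-(X ^ 3) - C b * X ^ 2 + C (N - c) * X : ℤ[X]).natDegree = 3 ∧
    (-(X ^ 3) - C b * X ^ 2 + C (N - c) * X : ℤ[X]).leadingCoeff = -1 ∧
    ∀ i, ((-(X ^ 3) - C b * X ^ 2 + C (N - c) * X : ℤ[X]).coeff i).natAbs ≤ b.natAbs + (N - c).natAbs + 1 := by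
  have h0 : (-(X ^ 3) - C b * X ^ 2 + C (N - c) * X : ℤ[X]) = C (-1) * X ^ 3 + C (-b) * X ^ 2 + C (N - c) * X + C 0 := by
    simp only [C_neg, C_1, C_0]
    ring
  have h1 := natDegree_cubic (a := (-1 : ℤ)) (b := -b) (c := N - c) (d := 0) (by norm_num)
  have h2 := leadingCoeff_cubic (a := (-1 : ℤ)) (b := -b) (c := N - c) (d := 0) (by norm_num)
  rw [h0]
  refine ⟨h1, h2, fun i => ?_⟩
  simp only [coeff_add, coeff_C_mul, coeff_X_pow, coeff_X, coeff_C]
  split_ifs <;> omega

open Classical in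
/-- **Every integer is `f(n) + n'` with `n`, `n'` almost prime and `n` a palindrome with two digits.** -/
theorem result : ∀ B : ℕ, 2 ≤ B → ∀ e g : ℕ, e < B → g < B → e ≠ 0 → g ≠ e → ∀ L : ℕ, 1 ≤ L →
    ∃ c₀ : ℝ, 0 < c₀ ∧ ∃ r : ℕ, ∀ᶠ K : ℕ in atTop, ∀ N b c : ℤ,
      |N| ≤ (B : ℤ) ^ (L * K) → |b| ≤ (B : ℤ) ^ (L * K) → |c| ≤ (B : ℤ) ^ (L * K) →
      c₀ * (2 : ℝ) ^ ((K : ℝ) / 2) / (K : ℝ) ^ 3 ≤
        (((Finset.range (B ^ K)).filter (fun n : ℕ => Pal B e g K n ∧ Almost r n ∧
          Almost r (N - ((n : ℤ) ^ 2 + b * n + c)))).card : ℝ) := by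
  intro B hB e g he hg he0 heg L hL
  obtain ⟨c₀, hc₀, r, h⟩ := Pool.Agent.Run7.h620.PD.poly_uniform B hB e g he hg he0 heg 3 (by norm_num) 1 (L + 1) (by omega)
  refine ⟨c₀, hc₀, r, ?_⟩
  filter_upwards [h, eventually_ge_atTop 4] with K hK hK4 N b c hN hb hc
  have conv : ∀ x : ℤ, |x| ≤ (B : ℤ) ^ (L * K) → x.natAbs ≤ B ^ (L * K) := by
    intro x hx
    have h3 : ((x.natAbs : ℕ) : ℤ) ≤ ((B ^ (L * K) : ℕ) : ℤ) := by
      rw [Int.natCast_natAbs]
      push_cast
      exact hx
    exact_mod_cast h3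
  have hN' := conv N hN
  have hb' := conv b hb
  have hc' := conv c hc
  have hbig : 4 * B ^ (L * K) ≤ B ^ ((L + 1) * K) := by
    calc 4 * B ^ (L * K) ≤ B ^ K * B ^ (L * K) := by
          apply Nat.mul_le_mul_right
          calc 4 = 2 ^ 2 := by norm_num
            _ ≤ 2 ^ K := Nat.pow_le_pow_right (by norm_num) (by omega)
            _ ≤ B ^ K := Nat.pow_le_pow_left hB _
      _ = _ := by rw [← pow_add]; congr 1; ring
  have h1B : 1 ≤ B ^ (L * K) := Nat.one_le_pow _ _ (by omega)
  obtain ⟨h1, h2, h3⟩ := nd b c N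
  obtain ⟨P, hP1, hP2⟩ := hK _ h1 (by rw [h2]; rfl) (fun i => (h3 i).trans (by omega))
  refine hP1.trans ?_
  have hle : P.card ≤ ((Finset.range (B ^ K)).filter (fun n : ℕ => Pal B e g K n ∧ Almost r n ∧
          Almost r (N - ((n : ℤ) ^ 2 + b * n + c)))).card := by
    apply card_le_card
    intro n hn
    obtain ⟨g1, g2, g3, g4⟩ := hP2 n hn
    have hev : (-(Polynomial.X ^ 3) - Polynomial.C b * Polynomial.X ^ 2 + Polynomial.C (N - c) * Polynomial.X :
        Polynomial ℤ).eval (n : ℤ) = (n : ℤ) * (N - ((n : ℤ) ^ 2 + b * n + c)) := by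
      simp only [Polynomial.eval_add, Polynomial.eval_sub, Polynomial.eval_neg, Polynomial.eval_mul,
        Polynomial.eval_pow, Polynomial.eval_X, Polynomial.eval_C]
      ring
    rw [hev] at g3 g4
    have k1 : (n : ℤ) ≠ 0 := left_ne_zero_of_mul g3
    have k2 : N - ((n : ℤ) ^ 2 + b * n + c) ≠ 0 := right_ne_zero_of_mul g3
    rw [Int.natAbs_mul, ArithmeticFunction.cardFactors_mul (Int.natAbs_ne_zero.2 k1) (Int.natAbs_ne_zero.2 k2),
      ArithmeticFunction.cardFactors_apply, ArithmeticFunction.cardFactors_apply] at g4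
    rw [mem_filter, mem_range]
    exact ⟨g1, g2, ⟨k1, by omega⟩, ⟨k2, by omega⟩⟩
  exact_mod_cast hle

end Pool.Agent.Results.MP_d9bc60_nt.AllIntegersPalindromes
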