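import Mathlib
import Pool.Agent.Run7.h251.SY.App
import Pool.Agent.Run7.h251.SP.Dig

set_option autoImplicit false

/-!
# Several numbers of the form `f_i(p) + q_i` with one prime `p`, in all windows

Uses project MK of this run (systems at prime arguments, `Run7.h18.MK.sysp_fin`) and the theorem of helper469 on numbers
near good approximations (`Run7.h469.GA.main`).
-/

open Finset Filter Topology MeasureTheory Polynomial

namespace Pool.Agent.Results.MP_d9bc60_nt.CommonPrimeArgument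

/-- The largest coordinate. -/
def top {k : ℕ} (a : Fin k → ℕ) : ℕ := univ.sup a

/-- Nonconstant integer polynomials of degree at most `D` with coefficients at most `(log M) ^ T` in absolute value. -/
def System {k : ℕ} (D T M : ℕ) (f : Fin k → ℤ[X]) : Prop :=
  ∀ i, 1 ≤ (f i).natDegree ∧ (f i).natDegree ≤ D ∧ ∀ j, |(((f i).coeff j : ℤ) : ℝ)| ≤ Real.log M ^ T

/-- No prime divides all the values of the product of `X` and the `a_i + f_i(X)`. -/
def NoFixedPrime {k : ℕ} (f : Fin k → ℤ[X]) (a : Fin k → ℕ) : Prop :=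
  ∀ p : ℕ, p.Prime → ∃ m : ℤ, ¬ (p : ℤ) ∣ m * ∏ i, ((a i : ℤ) + (f i).eval m)

/-- The number of the residues `r` modulo `p` for which `p` divides the product of `r` and the `a_i + f_i(r)`. -/
noncomputable def rootCount {k : ℕ} (f : Fin k → ℤ[X]) (a : Fin k → ℕ) (p : ℕ) : ℕ :=
  ((range p).filter (fun r : ℕ => (p : ℤ) ∣ (r : ℤ) * ∏ i, ((a i : ℤ) + (f i).eval (r : ℤ)))).card

/-- The product of the local densities `(1 - rootCount / p) / (1 - 1 / p) ^ (k + 1)` over the primes `p ≤ z`. -/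
noncomputable def density {k : ℕ} (f : Fin k → ℤ[X]) (a : Fin k → ℕ) (z : ℕ) : ℝ :=
  ∏ p ∈ (Icc 1 z).filter Nat.Prime, (1 - (rootCount f a p : ℝ) / p) / (1 - 1 / (p : ℝ)) ^ (k + 1)

/-- The sum of `log p` times the product of the `log (a_i + f_i(p))` over the primes `p` with `y < p ≤ y'` for which all
the `a_i + f_i(p)` are primes. -/
noncomputable def count {k : ℕ} (f : Fin k → ℤ[X]) (a : Fin k → ℕ) (y y' : ℕ) : ℝ :=
  ∑ p ∈ (Ioc y y').filter (fun p : ℕ => p.Prime ∧ ∀ i, ((a i : ℤ) + (f i).eval (p : ℤ)).toNat.Prime),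
    Real.log p * ∏ i, Real.log (((a i : ℤ) + (f i).eval (p : ℤ) : ℤ) : ℝ)

/-- `(y, y']` is a window for `M` and `f` : `M ^ (1/3 + δ) ≤ y' ^ (deg f_i) ≤ M ^ (1 - δ)` for all `i`. -/
def Window {k : ℕ} (δ : ℝ) (M y y' : ℕ) (f : Fin k → ℤ[X]) : Prop :=
  y ≤ y' ∧ ∀ i, (M : ℝ) ^ (1 / 3 + δ) ≤ (y' : ℝ) ^ (f i).natDegree ∧ (y' : ℝ) ^ (f i).natDegree ≤ (M : ℝ) ^ (1 - δ)

/-- The asymptotic formula for the tuple `a` with largest coordinate `M` : for some `z` between `(log M) ^ W` and `M ^ δ`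
and ALL systems `f`, the density is at least `1 / (log M) ^ (k D + 3)` if there is no fixed prime, and in ALL windows
`(y, y']` the `a_i + f_i(m)`, `1 ≤ m ≤ y'`, are positive, and the primes `p` for which all the `a_i + f_i(p)` are primes,
counted with the logarithms, number `density (y' - y)` up to `y' / (log M) ^ W`. -/
def Formula {k : ℕ} (D T W : ℕ) (δ : ℝ) (a : Fin k → ℕ) : Prop :=
  ∃ z : ℕ, Real.log (top a) ^ W ≤ z ∧ (z : ℝ) ≤ ((top a : ℕ) : ℝ) ^ δ ∧ ∀ f : Fin k → ℤ[X], System D T (top a) f →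
    (NoFixedPrime f a → 1 / Real.log (top a) ^ (k * D + 3) ≤ density f a z) ∧
    ∀ y y' : ℕ, Window δ (top a) y y' f → (∀ i, ∀ m ∈ Icc 1 y', 1 ≤ (a i : ℤ) + (f i).eval (m : ℤ)) ∧
      |count f a y y' - density f a z * ((y' : ℝ) - y)| ≤ y' / Real.log (top a) ^ W

/-- For ALL systems `f` without fixed prime and in ALL windows `(y, y']` of length at least `y' / (log M) ^ W` there is a
prime `p` such that all the `a_i + f_i(p)` are primes. -/
def CommonPrime {k : ℕ} (D T W : ℕ) (δ : ℝ) (a : Fin k → ℕ) : Prop :=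
  ∀ f : Fin k → ℤ[X], System D T (top a) f → NoFixedPrime f a → ∀ y y' : ℕ, Window δ (top a) y y' f →
    (y' : ℝ) / Real.log (top a) ^ W ≤ (y' : ℝ) - y →
    ∃ p ∈ Ioc y y', p.Prime ∧ ∀ i, ((a i : ℤ) + (f i).eval (p : ℤ)).toNat.Prime

/-- The case of quadratic polynomials: for ALL `b_i`, `c_i` of absolute value at most `(log M) ^ T` such that no prime
divides all the values of the product of `X` and the `a_i - (X ^ 2 + b_i X + c_i)`, and ALL `y ≤ y'` with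
`M ^ (1/3 + δ) ≤ y' ^ 2 ≤ M ^ (1 - δ)` and `y' - y ≥ y' / (log M) ^ W`, there are ONE prime `p` with `y < p ≤ y'` and
primes `q_i` with `a_i = p ^ 2 + b_i p + c_i + q_i`. -/
def Quadratic {k : ℕ} (T W : ℕ) (δ : ℝ) (a : Fin k → ℕ) : Prop := ∀ b c : Fin k → ℤ,
  (∀ i, |((b i : ℤ) : ℝ)| ≤ Real.log (top a) ^ T ∧ |((c i : ℤ) : ℝ)| ≤ Real.log (top a) ^ T) →
  (∀ p : ℕ, p.Prime → ∃ m : ℤ, ¬ (p : ℤ) ∣ m * ∏ i, ((a i : ℤ) - (m ^ 2 + b i * m + c i))) →
  ∀ y y' : ℕ, y ≤ y' → ((top a : ℕ) : ℝ) ^ (1 / 3 + δ) ≤ (y' : ℝ) ^ 2 → (y' : ℝ) ^ 2 ≤ ((top a : ℕ) : ℝ) ^ (1 - δ) →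
    (y' : ℝ) / Real.log (top a) ^ W ≤ (y' : ℝ) - y →
    ∃ p ∈ Ioc y y', p.Prime ∧ ∀ i, ∃ q : ℕ, q.Prime ∧ (a i : ℤ) = ((p : ℤ) ^ 2 + b i * p + c i) + q

/-- The tuple `a` is good. -/
def Good {k : ℕ} (D T W : ℕ) (δ : ℝ) (a : Fin k → ℕ) : Prop :=
  Formula D T W δ a ∧ CommonPrime D T W δ a ∧ (2 ≤ D → Quadratic T W δ a)

/-- The assertion of the question for the odd number `n`, ALL admissible `f = X ^ 2 + b X + c` (`b + c` odd, `3 ∤ b`) with
`|b|, |c| ≤ (log n) ^ T`, and `p` in ALL windows: for all `y ≤ y'` with `n ^ (1/3 + δ) ≤ y' ^ 2 ≤ n ^ (1 - δ)` and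
`y' - y ≥ y' / (log n) ^ W` there are primes `p` and `q` with `y < p ≤ y'` and `n = p ^ 2 + b p + c + q`. -/
def Schinzel (T W : ℕ) (δ : ℝ) (n : ℕ) : Prop := ∀ b c : ℤ, Odd (b + c) → ¬ (3 : ℤ) ∣ b →
  |(b : ℝ)| ≤ Real.log n ^ T → |(c : ℝ)| ≤ Real.log n ^ T → ∀ y y' : ℕ, y ≤ y' →
    (n : ℝ) ^ (1 / 3 + δ) ≤ (y' : ℝ) ^ 2 → (y' : ℝ) ^ 2 ≤ (n : ℝ) ^ (1 - δ) →
    (y' : ℝ) / Real.log n ^ W ≤ (y' : ℝ) - y →
    ∃ p ∈ Ioc y y', p.Prime ∧ ∃ q : ℕ, q.Prime ∧ (n : ℤ) = ((p : ℤ) ^ 2 + b * p + c) + q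

/-- `q ≥ 1`, and the rational tuple `p / q` approximates `α` up to `(log q)^B / q^(1 + 1/d)` in all coordinates. -/
def GoodApproximation (d B : ℕ) (α : Fin d → ℝ) (p : Fin d → ℤ) (q : ℕ) : Prop :=
  1 ≤ q ∧ ∀ i, |α i - p i / q| ≤ Real.log q ^ B / (q : ℝ) ^ (1 + 1 / (d : ℝ))

/-- The tuple `m q, m |p_1|, ..., m |p_d|`. -/
def multiple {d : ℕ} (m : ℕ) (p : Fin d → ℤ) (q : ℕ) : Fin (d + 1) → ℕ :=
  fun i => m * (Fin.cons q (fun i => (p i).natAbs) : Fin (d + 1) → ℕ) i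

/-- `n = u_1 p_1 + … + u_d p_d + v q + w` is positive, where `(u, v) ≠ (0, 0)` and all the integers `u_i`, `v`, `w` are at
most `(log q)^B` in absolute value. -/
def Near {d : ℕ} (B : ℕ) (p : Fin d → ℤ) (q n : ℕ) : Prop :=
  0 < n ∧ ∃ (u : Fin d → ℤ) (v w : ℤ), (u ≠ 0 ∨ v ≠ 0) ∧ (∀ i, (|u i| : ℝ) ≤ Real.log q ^ B) ∧
    (|v| : ℝ) ≤ Real.log q ^ B ∧ (|w| : ℝ) ≤ Real.log q ^ B ∧ (n : ℤ) = ∑ i, u i * p i + v * q + w

theorem good_of {k D T W : ℕ} (hk : 1 ≤ k) {δ : ℝ} {a : Fin k → ℕ} (hM : 3 ≤ Run7.h251.SP.top a)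
    (h : Run7.h251.SY.Good D T (W + k * D + 4) δ a) : Good D T W δ a := by
  have hcp : CommonPrime D T W δ a := fun f hf hfix y y' hw hlen =>
    Run7.h251.SY.exists_common hk hM h hf hfix hw hlen
  refine ⟨Run7.h251.SY.good_mono (W := W) hM (by omega) h, hcp, fun hD b c hbc hfix y y' hyy h1 h2 h3 => ?_⟩
  obtain ⟨p, hp, hp1, hp2⟩ := hcp (fun i => Run7.h251.SY.quad (b i) (c i)) (Run7.h251.SY.sys_quad hD hM b c hbc)
    (fun p hp => by
      obtain ⟨m, hm⟩ := hfix p hp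
      refine ⟨m, ?_⟩
      simp only [Run7.h251.SY.quad_eval, ← sub_eq_add_neg]
      exact hm) y y' ⟨hyy, fun i => by
        simp only [Run7.h251.SY.quad_deg]
        exact ⟨h1, h2⟩⟩ h3
  refine ⟨p, hp, hp1, fun i => ?_⟩
  have h4 := hp2 i
  simp only [Run7.h251.SY.quad_eval] at h4
  refine ⟨((a i : ℤ) + -((p : ℤ) ^ 2 + b i * p + c i)).toNat, h4, ?_⟩
  have h5 := h4.pos
  have h6 : ((((a i : ℤ) + -((p : ℤ) ^ 2 + b i * p + c i)).toNat : ℕ) : ℤ) =
      (a i : ℤ) + -((p : ℤ) ^ 2 + b i * p + c i) := by omega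
  rw [h6]
  ring

theorem sparse_good (k D T W : ℕ) (hk : 1 ≤ k) (hD : 1 ≤ D) (δ : ℝ) (hδ : 0 < δ) :
    Run7.h251.SP.Sparse k (fun a => Good D T W δ a) := by
  apply Run7.h251.SP.sparse_imp hk (Run7.h251.SY.sparse k D T hk hD δ hδ (W + k * D + 4)) 3
  intro a ha h
  exact good_of hk ha h

theorem schinzel_of {T W n : ℕ} {δ : ℝ} (hn : Odd n) (h : Good 2 T W δ (fun _ : Fin 1 => n)) : Schinzel T W δ n := by
  intro b c hbc hb3 hb hc y y' hyy h1 h2 h3
  have htop : top (fun _ : Fin 1 => n) = n := Run7.h251.SP.top_one n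
  have hodd' : Odd (n : ℤ) := by exact_mod_cast hn
  have h4 := h.2.2 le_rfl (fun _ => b) (fun _ => c)
  rw [htop] at h4
  obtain ⟨p, hp, hp1, hp2⟩ := h4 (fun _ => ⟨hb, hc⟩) (fun p hp => by
    obtain ⟨m, hm⟩ := Pool.Agent.Run7.h18.MK.quad_fix n b c hodd' hbc hb3 p hp
    refine ⟨m, ?_⟩
    rw [Fin.prod_univ_one]
    exact hm) y y' hyy h1 h2 h3
  exact ⟨p, hp, hp1, hp2 0⟩

/-- **Several numbers of the form `f_i(p) + q_i` with one prime `p`, in all windows.** Let `δ > 0` and `T`, `W` be given.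

(1) For all `k, D ≥ 1`, all `A` and all large `X`, all but at most `X ^ k / (log X) ^ A` of the tuples `a` of integers of
`[1, X]` are good: for ALL systems `f` of `k` nonconstant integer polynomials of degree at most `D` and height at most
`(log M) ^ T`, `M` the largest coordinate, the asymptotic formula for the number of the primes `p` with all `a_i + f_i(p)`
prime holds in ALL windows; without fixed prime there is such a prime in all windows of length at least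
`y' / (log M) ^ W`; in particular there are, for ALL monic quadratic `f_i` of such heights without fixed prime, ONE prime
`p` in every such window and primes `q_i` with `a_i = f_i(p) + q_i`.

(2) For all `A` and all large `X`, all but at most `X / (log X) ^ A` of the odd `n ≤ X` satisfy the assertion of the
question for ALL admissible `f` of height at most `(log n) ^ T`, with `p` in ALL windows.

(3) For all `d, D ≥ 1`, `B` and almost every real tuple `α` of length `d`, for all but finitely many of the good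
approximations `p / q` of `α` and all `1 ≤ m ≤ (log q) ^ B` the tuple `m q, m |p_1|, ..., m |p_d|` is good.

(4) For every `d ≥ 1`, `B` and almost every real tuple `α` of length `d`, for all but finitely many of the good
approximations `p / q` of `α`, ALL positive odd integers near a small combination of `p_1`, …, `p_d`, `q` satisfy the
assertion of the question as in (2).

(5) For every sequence `λ_n ≥ exp (n ^ ε)`, `ε > 0`, and almost every real tuple `x`: for all but finitely many `n` ALL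
tuples `a` of positive integers with `|a_i - λ_n |x_i|| ≤ (log λ_n) ^ B` for all `i` are good. -/
theorem result (δ : ℝ) (hδ : 0 < δ) (T W : ℕ) :
    (∀ k D A : ℕ, 1 ≤ k → 1 ≤ D → ∃ X₀ : ℕ, ∀ X : ℕ, X₀ ≤ X → ∀ E : Finset (Fin k → ℕ),
      (∀ a ∈ E, (∀ i, 1 ≤ a i ∧ a i ≤ X) ∧ ¬ Good D T W δ a) → (E.card : ℝ) ≤ (X : ℝ) ^ k / Real.log X ^ A) ∧
    (∀ A : ℕ, ∃ X₀ : ℕ, ∀ X : ℕ, X₀ ≤ X → ∀ E : Finset ℕ, (∀ n ∈ E, Odd n ∧ n ≤ X ∧ ¬ Schinzel T W δ n) →
      (E.card : ℝ) ≤ X / Real.log X ^ A) ∧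
    (∀ d D B : ℕ, 1 ≤ d → 1 ≤ D → ∀ᵐ α : Fin d → ℝ, {z : (Fin d → ℤ) × ℕ | GoodApproximation d B α z.1 z.2 ∧
      ∃ m : ℕ, 1 ≤ m ∧ (m : ℝ) ≤ Real.log z.2 ^ B ∧ ¬ Good D T W δ (multiple m z.1 z.2)}.Finite) ∧
    (∀ d B : ℕ, 1 ≤ d → ∀ᵐ α : Fin d → ℝ, {z : (Fin d → ℤ) × ℕ | GoodApproximation d B α z.1 z.2 ∧
      ∃ n : ℕ, Near B z.1 z.2 n ∧ Odd n ∧ ¬ Schinzel T W δ n}.Finite) ∧
    (∀ (k D B : ℕ) (ε : ℝ) (lam : ℕ → ℝ), 1 ≤ k → 1 ≤ D → 0 < ε → (∀ n : ℕ, Real.exp ((n : ℝ) ^ ε) ≤ lam n) →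
      ∀ᵐ x : Fin k → ℝ, ∀ᶠ n : ℕ in atTop, ∀ a : Fin k → ℕ, (∀ i, 1 ≤ a i) →
        (∀ i, |((a i : ℝ) - lam n * |x i|)| ≤ Real.log (lam n) ^ B) → Good D T W δ a) := by
  have hS := sparse_good 1 2 T W le_rfl (by norm_num) δ hδ
  refine ⟨fun k D A hk hD => sparse_good k D T W hk hD δ hδ A, fun A => ?_, fun d D B hd hD => ?_, fun d B hd => ?_,
    fun k D B ε lam hk hD hε hlam => ?_⟩
  · obtain ⟨X₀, h⟩ := hS A
    refine ⟨X₀, fun X hX E hE => ?_⟩
    have h1 := h X hX (E.image (fun n => fun _ : Fin 1 => n)) (by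
      intro a ha
      rw [mem_image] at ha
      obtain ⟨n, hn, rfl⟩ := ha
      obtain ⟨g1, g2, g3⟩ := hE n hn
      exact ⟨fun _ => ⟨g1.pos, g2⟩, fun h5 => g3 (schinzel_of g1 h5)⟩)
    rw [card_image_of_injective, pow_one] at h1
    · exact h1
    · intro a b hab
      exact congrFun hab 0
  · exact Run7.h251.SP.vec hd _ (sparse_good (d + 1) D T W (by omega) hD δ hδ) B
  · filter_upwards [Run7.h469.GA.main _ (Run7.h251.SP.thin_of_sparse hS) d B hd] with α hα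
    apply hα.subset
    rintro ⟨p, q⟩ ⟨h1, n, h2, h3, h4⟩
    exact ⟨h1, n, h2, fun h5 => h4 (schinzel_of h3 h5)⟩
  · exact Run7.h251.SP.near_seq _ (sparse_good k D T W hk hD δ hδ) ε hε lam hlam B

end Pool.Agent.Results.MP_d9bc60_nt.CommonPrimeArgument
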