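import Mathlib
import Pool.Agent.Run7.h18.MK.Arb4

set_option autoImplicit false

/-!
# `n = f(p) + q` with a small prime `p`, for all polynomials `f` at once, for almost every `n`

Uses project MK of this run (the one-shift law for short shifts, `S_LAW'`), the polynomial Weyl sums
`H373R2.NB.IW_all` and the sifted sums over primes `H373R2.T7.sys_main` (Bombieri-Vinogradov) of the starting files.
-/

open Polynomial Finset

namespace Pool.Agent.Results.MP_d9bc60_nt.SmallPrimeArguments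

/-- The number of the residues `r` modulo `p` for which `p` divides `r (n + f(r))`. -/
noncomputable def rootCount (f : ℤ[X]) (n : ℤ) (p : ℕ) : ℕ :=
  ((range p).filter (fun r : ℕ => (p : ℤ) ∣ r * (n + f.eval (r : ℤ)))).card

/-- The expected density: the product of `(1 - rootCount / p) / (1 - 1 / p) ^ 2` over the primes `p ≤ z`. -/
noncomputable def density (f : ℤ[X]) (n : ℤ) (z : ℕ) : ℝ :=
  ∏ p ∈ (Icc 1 z).filter Nat.Prime, (1 - (rootCount f n p : ℝ) / p) / (1 - 1 / (p : ℝ)) ^ 2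

/-- The sum of `log p * log (n + f(p))` over the primes `p ≤ x` for which `n + f(p)` is a prime. -/
noncomputable def pairSum (f : ℤ[X]) (n : ℤ) (x : ℕ) : ℝ :=
  ∑ p ∈ (Icc 1 x).filter (fun p : ℕ => p.Prime ∧ (n + f.eval (p : ℤ)).toNat.Prime),
    Real.log p * Real.log ((n + f.eval (p : ℤ) : ℤ) : ℝ)

/-- Let `d ≥ 1`, `T` and `U` be integers. There are `C` and `B` such that for every `E` and all large `N`, with
`L = log N`, and for every `z` between `L ^ B` and `L ^ E`, all but at most `N / L ^ U` of the integers `n` in `[1, N]`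
have the following properties. For ALL integer polynomials `f` with `1 ≤ deg f ≤ d` and coefficients at most `L ^ T` in
absolute value and ALL integers `x` with `N ^ (1/3) L ^ C ≤ x ^ (deg f) ≤ N / L ^ C`, the numbers `n + f(m)`, `m ≤ x`,
are positive, the primes `p ≤ x` with `n + f(p)` prime, counted with `log p * log (n + f(p))`, number
`x * density + O(x / L ^ U)`, and if no prime divides all the values of `X (n + f(X))`, then the density is at least
`1 / L ^ (d+2)` and (if `U ≥ d + 3`) some `p ≤ x` and `n + f(p)` are both prime. In particular (if `d ≥ 2`, `U ≥ d + 3`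
and `n` is odd), for ALL admissible `g = X ^ 2 + b X + c` (`b + c` odd, `3 ∤ b`) with `|b|, |c| ≤ L ^ T` and all such `x`
(`N ^ (1/3) L ^ C ≤ x ^ 2 ≤ N / L ^ C`) one has `n = g(p) + q` with primes `p ≤ x` and `q`. -/
theorem result (d T U : ℕ) (hd : 1 ≤ d) : ∃ C B : ℕ, ∀ E : ℕ, ∃ N₀ : ℕ, ∀ N : ℕ, N₀ ≤ N → ∀ z : ℕ,
    Real.log N ^ B ≤ z → (z : ℝ) ≤ Real.log N ^ E →
    ∃ Ex : Finset ℕ, (Ex.card : ℝ) ≤ N / Real.log N ^ U ∧ ∀ n ∈ Icc 1 N, n ∉ Ex →
      (∀ f : ℤ[X], 1 ≤ f.natDegree → f.natDegree ≤ d → (∀ i, |((f.coeff i : ℤ) : ℝ)| ≤ Real.log N ^ T) →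
        ∀ x : ℕ, (N : ℝ) ^ (1 / 3 : ℝ) * Real.log N ^ C ≤ (x : ℝ) ^ f.natDegree →
          (x : ℝ) ^ f.natDegree * Real.log N ^ C ≤ N →
          (∀ m ∈ Icc 1 x, 1 ≤ (n : ℤ) + f.eval (m : ℤ)) ∧
          |pairSum f n x - x * density f n z| ≤ x / Real.log N ^ U ∧
          ((∀ p : ℕ, p.Prime → ∃ m : ℤ, ¬ (p : ℤ) ∣ m * ((n : ℤ) + f.eval m)) →
            1 / Real.log N ^ (d + 2) ≤ density f n z ∧
            (d + 3 ≤ U → ∃ p ∈ Icc 1 x, p.Prime ∧ ((n : ℤ) + f.eval (p : ℤ)).toNat.Prime))) ∧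
      (2 ≤ d → d + 3 ≤ U → Odd n → ∀ b c : ℤ, Odd (b + c) → ¬ (3 : ℤ) ∣ b →
        |(b : ℝ)| ≤ Real.log N ^ T → |(c : ℝ)| ≤ Real.log N ^ T →
        ∀ x : ℕ, (N : ℝ) ^ (1 / 3 : ℝ) * Real.log N ^ C ≤ (x : ℝ) ^ 2 → (x : ℝ) ^ 2 * Real.log N ^ C ≤ N →
          ∃ p q : ℕ, p.Prime ∧ q.Prime ∧ p ≤ x ∧ (n : ℤ) = ((p : ℤ) ^ 2 + b * p + c) + q) := by
  classical
  obtain ⟨C, B, h⟩ := Pool.Agent.Run7.h18.MK.prime_fin d T U hd
  refine ⟨C, B, fun E => ?_⟩
  obtain ⟨N₁, h⟩ := h E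
  obtain ⟨N₂, h2⟩ := Pool.Agent.Run7.h18.MK.ev 1 2
  refine ⟨N₁ + N₂, fun N hN z hz1 hz2 => ?_⟩
  obtain ⟨Ex, hE1, hE2⟩ := h N (by omega) z hz1 hz2
  obtain ⟨hL2, -⟩ := h2 N (by omega)
  have hL0 : 0 < Real.log (N : ℝ) := by linarith
  refine ⟨Ex, hE1, fun n hn hnE => ?_⟩
  have hfirst : ∀ f : ℤ[X], 1 ≤ f.natDegree → f.natDegree ≤ d → (∀ i, |((f.coeff i : ℤ) : ℝ)| ≤ Real.log N ^ T) →
        ∀ x : ℕ, (N : ℝ) ^ (1 / 3 : ℝ) * Real.log N ^ C ≤ (x : ℝ) ^ f.natDegree →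
          (x : ℝ) ^ f.natDegree * Real.log N ^ C ≤ N →
          (∀ m ∈ Icc 1 x, 1 ≤ (n : ℤ) + f.eval (m : ℤ)) ∧
          |pairSum f n x - x * density f n z| ≤ x / Real.log N ^ U ∧
          ((∀ p : ℕ, p.Prime → ∃ m : ℤ, ¬ (p : ℤ) ∣ m * ((n : ℤ) + f.eval m)) →
            1 / Real.log N ^ (d + 2) ≤ density f n z ∧
            (d + 3 ≤ U → ∃ p ∈ Icc 1 x, p.Prime ∧ ((n : ℤ) + f.eval (p : ℤ)).toNat.Prime)) := by
    intro f hf1 hf2 hcf x hx1 hx2
    obtain ⟨a1, a2⟩ := hE2 n hn hnE f hf1 hf2 hcf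
    obtain ⟨a3, a4⟩ := a2 x hx1 hx2
    have hroot : ∀ p : ℕ, rootCount f n p =
        Pool.Agent.H373R2.T7.nuB (Pool.Agent.Run7.h18.MK.Rt (X * (Polynomial.C (n : ℤ) + f)) 0) p := by
      intro p
      unfold rootCount Pool.Agent.H373R2.T7.nuB Pool.Agent.Run7.h18.MK.Rt
      have e1 : ∀ r : ℕ, (0 : ℤ) + eval (r : ℤ) (X * (Polynomial.C (n : ℤ) + f)) = r * (n + f.eval (r : ℤ)) := by
        intro r
        rw [zero_add, eval_mul, eval_X, eval_add, eval_C]
      simp only [e1]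
    have hden : density f n z = Pool.Agent.Run7.h18.MK.Sg2 f n z := by
      unfold density Pool.Agent.Run7.h18.MK.Sg2 Pool.Agent.Run7.h18.MK.Sg Pool.Agent.H373R2.T7.Vz
        Pool.Agent.H373R2.T7.pz
      rw [prod_div_distrib, ← mul_assoc, ← mul_inv, ← sq, ← prod_pow, div_eq_inv_mul]
      congr 1
      exact prod_congr rfl fun p _ => by rw [hroot]
    have hsum : pairSum f n x = ∑ m ∈ Icc 1 x, Pool.Agent.R460.SQ.thp m *
        Pool.Agent.R460.SQ.thp ((n : ℤ) + f.eval (m : ℤ)).toNat := by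
      unfold pairSum Pool.Agent.R460.SQ.thp
      rw [sum_filter]
      refine sum_congr rfl fun m hm => ?_
      have h5 := a3 m hm
      have h6 : ((((n : ℤ) + f.eval (m : ℤ)).toNat : ℕ) : ℝ) = (((n : ℤ) + f.eval (m : ℤ) : ℤ) : ℝ) := by
        rw [← Int.cast_natCast, Int.toNat_of_nonneg (by omega)]
      rw [h6]
      by_cases h7 : m.Prime
      · by_cases h8 : ((n : ℤ) + f.eval (m : ℤ)).toNat.Prime
        · rw [if_pos ⟨h7, h8⟩, if_pos h7, if_pos h8]
        · rw [if_neg (fun h => h8 h.2), if_neg h8, mul_zero]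
      · rw [if_neg (fun h => h7 h.1), if_neg h7, zero_mul]
    rw [hden, hsum]
    refine ⟨a3, a4, fun hfix => ⟨a1 hfix, fun hU => ?_⟩⟩
    by_contra hcon
    push Not at hcon
    have h7 : ∑ m ∈ Icc 1 x, Pool.Agent.R460.SQ.thp m *
        Pool.Agent.R460.SQ.thp ((n : ℤ) + f.eval (m : ℤ)).toNat = 0 := by
      apply sum_eq_zero
      intro m hm
      unfold Pool.Agent.R460.SQ.thp
      by_cases h8 : m.Prime
      · rw [if_neg (hcon m hm h8), mul_zero]
      · rw [if_neg h8, zero_mul]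
    rw [h7, zero_sub, abs_neg] at a4
    have h8 := a1 hfix
    have hxe : (0 : ℝ) < (x : ℝ) ^ f.natDegree := by
      refine lt_of_lt_of_le ?_ hx1
      have : (0 : ℝ) < N := by
        have h9 : N ≠ 0 := by
          intro h9
          rw [h9, Nat.cast_zero, Real.log_zero] at hL2
          linarith
        exact_mod_cast Nat.pos_of_ne_zero h9
      positivity
    have hx0 : (0 : ℝ) < x := by
      rcases Nat.eq_zero_or_pos x with h | h
      · rw [h, Nat.cast_zero, zero_pow (by omega)] at hxe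
        exact absurd hxe (lt_irrefl _)
      · exact_mod_cast h
    have h9 : (x : ℝ) * (1 / Real.log N ^ (d + 2)) ≤ x / Real.log N ^ U :=
      (mul_le_mul_of_nonneg_left h8 hx0.le).trans ((le_abs_self _).trans a4)
    have h10 : (x : ℝ) / Real.log N ^ U < x * (1 / Real.log N ^ (d + 2)) := by
      rw [mul_one_div]
      apply div_lt_div_of_pos_left hx0 (by positivity)
      calc Real.log (N : ℝ) ^ (d + 2) < Real.log (N : ℝ) ^ (d + 3) := pow_lt_pow_right₀ (by linarith) (by omega)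
        _ ≤ _ := pow_le_pow_right₀ (by linarith) hU
    linarith
  refine ⟨hfirst, fun hd2 hU hodd b c hbc hb3 hb hc x hx1 hx2 => ?_⟩
  obtain ⟨g, hg⟩ : ∃ g : ℤ[X], g = Polynomial.C (-1) * X ^ 2 + Polynomial.C (-b) * X + Polynomial.C (-c) := ⟨_, rfl⟩
  have hdeg : g.natDegree = 2 := by
    rw [hg]
    exact natDegree_quadratic (by norm_num)
  have hcoef : ∀ i, |((g.coeff i : ℤ) : ℝ)| ≤ Real.log N ^ T := by
    intro i
    have h1 : (1 : ℝ) ≤ Real.log N ^ T := one_le_pow₀ (by linarith)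
    rcases Nat.lt_or_ge i 3 with hi | hi
    · have h0 : g.coeff 0 = -c := by rw [hg]; simp only [coeff_add, coeff_C_mul, coeff_X_pow, coeff_X, coeff_C]; norm_num
      have h1' : g.coeff 1 = -b := by rw [hg]; simp only [coeff_add, coeff_C_mul, coeff_X_pow, coeff_X, coeff_C]; norm_num
      have h2' : g.coeff 2 = -1 := by rw [hg]; simp only [coeff_add, coeff_C_mul, coeff_X_pow, coeff_X, coeff_C]; norm_num
      interval_cases i
      · rw [h0, Int.cast_neg, abs_neg]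
        exact hc
      · rw [h1', Int.cast_neg, abs_neg]
        exact hb
      · rw [h2', Int.cast_neg, abs_neg, Int.cast_one, abs_one]
        exact h1
    · rw [coeff_eq_zero_of_natDegree_lt (by omega), Int.cast_zero, abs_zero]
      linarith
  have hev : ∀ m : ℤ, g.eval m = -(m ^ 2 + b * m + c) := by
    intro m
    rw [hg]
    simp
    ring
  obtain ⟨-, -, h3⟩ := hfirst g (by omega) (by omega) hcoef x (by rw [hdeg]; exact hx1) (by rw [hdeg]; exact hx2)
  have hodd' : Odd (n : ℤ) := by exact_mod_cast hodd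
  obtain ⟨-, h4⟩ := h3 (fun p hp => by
    obtain ⟨m, hm⟩ := Pool.Agent.Run7.h18.MK.quad_fix n b c hodd' hbc hb3 p hp
    refine ⟨m, ?_⟩
    rw [hev, ← sub_eq_add_neg]
    exact hm)
  obtain ⟨p, hp, hp1, hp2⟩ := h4 hU
  refine ⟨p, ((n : ℤ) + g.eval (p : ℤ)).toNat, hp1, hp2, (mem_Icc.1 hp).2, ?_⟩
  have h5 : 0 < ((n : ℤ) + g.eval (p : ℤ)).toNat := hp2.pos
  have h6 : ((((n : ℤ) + g.eval (p : ℤ)).toNat : ℕ) : ℤ) = (n : ℤ) + g.eval (p : ℤ) := by omega
  rw [h6, hev]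
  ring

end Pool.Agent.Results.MP_d9bc60_nt.SmallPrimeArguments
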